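import Mathlib

/-!
# Hilbert symbols over the rational numbers and the Brauer-Manin set of twisted hyperelliptic curves

Definitions and statements of the parts (project BX, helper313).
-/

set_option autoImplicit false
set_option linter.all false

namespace Pool.Agent.W313.BMX

open Finset Polynomial

/-- The quaternion algebra `(a, b)` over `F` splits, that is, the Hilbert symbol `(a, b)` is `1`:
the conic `z ^ 2 = a x ^ 2 + b y ^ 2` has a point over `F`. -/
def Splits {F : Type} [Field F] (a b : F) : Prop :=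
  ∃ x y z : F, (x ≠ 0 ∨ y ≠ 0 ∨ z ≠ 0) ∧ z ^ 2 = a * x ^ 2 + b * y ^ 2

instance factPrime (p : Nat.Primes) : Fact (p : ℕ).Prime := ⟨p.2⟩

/-- A family of elements of the completions of the rational numbers. -/
structure Fam where
  /-- the real component -/
  re : ℝ
  /-- the `p`-adic components -/
  pa : ∀ p : Nat.Primes, ℚ_[(p : ℕ)]

/-- The diagonal family of an integer. -/
noncomputable def diag (n : ℤ) : Fam := ⟨n, fun _ => n⟩

/-- The set of the places (`none` is the real one) at which the symbol `(a, e)` is not trivial. -/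
def ram (a : Fam) (e : ℤ) : Set (Option Nat.Primes) :=
  {v | match v with
    | none => ¬ Splits a.re (e : ℝ)
    | some p => ¬ Splits (a.pa p) (e : ℚ_[(p : ℕ)])}

/-- The test elements: `-1`, `2` and the numbers `± l = 1` modulo `4`, `l` an odd prime. -/
def IsTest (e : ℤ) : Prop := e = -1 ∨ e = 2 ∨ (e.natAbs.Prime ∧ e % 4 = 1)

/-! ### Part ODD: symbols at an odd prime -/

/-- squares -/
def S_ODD1 : Prop := ∀ (p : ℕ) [Fact p.Prime], p ≠ 2 → ∀ m n : ℤ, ¬ (p : ℤ) ∣ m → ¬ (p : ℤ) ∣ n →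
  legendreSym p m = legendreSym p n → IsSquare ((m * n : ℤ) : ℚ_[p])

/-- units -/
def S_ODD2 : Prop := ∀ (p : ℕ) [Fact p.Prime], p ≠ 2 → ∀ m e : ℤ, ¬ (p : ℤ) ∣ m → ¬ (p : ℤ) ∣ e →
  Splits ((m : ℤ) : ℚ_[p]) ((e : ℤ) : ℚ_[p])

/-- a unit and `p` times a unit -/
def S_ODD3 : Prop := ∀ (p : ℕ) [Fact p.Prime], p ≠ 2 → ∀ m e : ℤ, ¬ (p : ℤ) ∣ m → ¬ (p : ℤ) ∣ e →
  (Splits ((p * m : ℤ) : ℚ_[p]) ((e : ℤ) : ℚ_[p]) ↔ legendreSym p e = 1)

/-- representatives of the square classes, `p = 2` allowed -/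
def S_ODD4 : Prop := ∀ (p : ℕ) [Fact p.Prime] (a : ℚ_[p]), a ≠ 0 → ∃ (t : ℕ) (m : ℤ) (c : ℚ_[p]),
  t ≤ 1 ∧ ¬ (p : ℤ) ∣ m ∧ c ≠ 0 ∧ a = ((p ^ t * m : ℤ) : ℚ_[p]) * c ^ 2

/-! ### Part TWO: symbols at `2` -/

/-- squares -/
def S_TWO1 : Prop := ∀ m n : ℤ, m % 2 = 1 → m % 8 = n % 8 → IsSquare ((m * n : ℤ) : ℚ_[2])

/-- an odd number and a number `1` modulo `4` -/
def S_TWO2 : Prop := ∀ c e : ℤ, c % 2 = 1 → e % 4 = 1 →
  Splits ((c : ℤ) : ℚ_[2]) ((e : ℤ) : ℚ_[2])

/-- twice an odd number and a number `1` modulo `4` -/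
def S_TWO3 : Prop := ∀ c e : ℤ, c % 2 = 1 → e % 4 = 1 →
  (Splits ((2 * c : ℤ) : ℚ_[2]) ((e : ℤ) : ℚ_[2]) ↔ e % 8 = 1)

/-- an odd number or twice an odd number, and `-1` -/
def S_TWO4 : Prop := ∀ c : ℤ, c % 2 = 1 →
  (Splits ((c : ℤ) : ℚ_[2]) (-1) ↔ c % 4 = 1) ∧ (Splits ((2 * c : ℤ) : ℚ_[2]) (-1) ↔ c % 4 = 1)

/-- an odd number or twice an odd number, and `2` -/
def S_TWO5 : Prop := ∀ c : ℤ, c % 2 = 1 →
  (Splits ((c : ℤ) : ℚ_[2]) 2 ↔ (c % 8 = 1 ∨ c % 8 = 7)) ∧
    (Splits ((2 * c : ℤ) : ℚ_[2]) 2 ↔ (c % 8 = 1 ∨ c % 8 = 7))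

/-! ### Part REC: the product formula -/

/-- For a squarefree integer and a test element the number of the ramified places is even. -/
def S_REC : Prop := ∀ n : ℤ, Squarefree n → ∀ e : ℤ, IsTest e →
  (ram (diag n) e).Finite ∧ Even (ram (diag n) e).ncard

/-! ### The exactness theorem -/

/-- A family which is orthogonal to all test elements is, up to squares, an integer. -/
def S_EXACT : Prop := ∀ a : Fam, a.re ≠ 0 → (∀ p, a.pa p ≠ 0) →
  {p : Nat.Primes | ∀ (m : ℤ) (c : ℚ_[(p : ℕ)]), ¬ ((p : ℕ) : ℤ) ∣ m → a.pa p ≠ m * c ^ 2}.Finite →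
  (∀ e : ℤ, IsTest e → (ram a e).Finite → Even (ram a e).ncard) →
  ∃ n : ℤ, Squarefree n ∧ IsSquare (a.re * n) ∧ ∀ p, IsSquare (a.pa p * n)

/-! ### The curves -/

/-- the homogeneous polynomial of `f` -/
noncomputable def homog (f : ℤ[X]) {R : Type} [CommRing R] (x w : R) : R :=
  ∑ i ∈ range (f.natDegree + 1), (f.coeff i : R) * x ^ i * w ^ (f.natDegree - i)

section K

variable {K : Type} [Fintype K] [DecidableEq K]

/-- A point over `F` of the curve `d * y ^ 2 = ∏ k, f k (x, w)` in a weighted projective plane. -/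
structure Point (f : K → ℤ[X]) (d : ℤ) (F : Type) [Field F] where
  /-- the first coordinate -/
  x : F
  /-- the second coordinate -/
  w : F
  /-- the third coordinate -/
  y : F
  ne : x ≠ 0 ∨ w ≠ 0
  eq : (d : F) * y ^ 2 = ∏ k, homog (f k) x w

open Classical in
/-- The value of the `k`-th factor at a point, modulo squares; at a zero of the `k`-th factor it is
computed from the other factors. -/
noncomputable def value {f : K → ℤ[X]} {d : ℤ} {F : Type} [Field F] (P : Point f d F) (k : K) : F :=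
  if homog (f k) P.x P.w ≠ 0 then homog (f k) P.x P.w
  else d * ∏ l ∈ univ.erase k, homog (f l) P.x P.w

/-- The irreducibility conditions: the `f k` are irreducible of even degree and no two of them
differ by a constant factor. -/
def Admissible (f : K → ℤ[X]) : Prop :=
  (∀ k, Irreducible ((f k).map (Int.castRingHom ℚ))) ∧ (∀ k, Even (f k).natDegree) ∧
    ∀ k l, k ≠ l → ¬ Associated ((f k).map (Int.castRingHom ℚ)) ((f l).map (Int.castRingHom ℚ))

end K

/-! ### Part FIN: the value has even valuation at almost all primes -/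

/-- The value has even valuation at almost all primes. -/
def S_FIN : Prop := ∀ (K : Type) [Fintype K] [DecidableEq K] (f : K → ℤ[X]), Admissible f →
  ∀ d : ℤ, d ≠ 0 → ∃ z : ℕ, ∀ (p : ℕ) [Fact p.Prime], z < p → ∀ (P : Point f d ℚ_[p]) (k : K),
    ∃ (m : ℤ) (c : ℚ_[p]), ¬ (p : ℤ) ∣ m ∧ c ≠ 0 ∧ value P k = m * c ^ 2

/-! ### Part VAL: simple properties of the values, over any field of characteristic zero -/

/-- the values are not zero and their product is `d` up to squares; and the covering has a point -/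
def S_VAL : Prop := ∀ (K : Type) [Fintype K] [DecidableEq K] (f : K → ℤ[X]), Admissible f →
  ∀ d : ℤ, d ≠ 0 → ∀ (F : Type) [Field F] [CharZero F] (P : Point f d F),
    (∀ k, value P k ≠ 0) ∧ IsSquare ((d : F) * ∏ k, value P k) ∧
    ∀ n : K → ℤ, (∀ k, n k ≠ 0) → (∀ k, IsSquare (value P k * (n k : F))) →
      ∀ k, ∃ y : F, homog (f k) P.x P.w = (n k : F) * y ^ 2

end Pool.Agent.W313.BMX
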