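import Pool.Agent.W313.BMX.Stm

/-!
# Simple properties of the splitting of quaternion algebras; comparison of two sets of places
-/

set_option autoImplicit false
set_option linter.all false

namespace Pool.Agent.W313.BMX

section field

variable {F : Type} [Field F]

theorem splits_swap {a b : F} (h : Splits a b) : Splits b a := by
  obtain ⟨x, y, z, h0, h1⟩ := h
  exact ⟨y, x, z, by tauto, by rw [h1]; ring⟩

theorem splits_comm {a b : F} : Splits a b ↔ Splits b a := ⟨splits_swap, splits_swap⟩

theorem splits_of_mul_sq {a b c : F} (hc : c ≠ 0) (h : Splits (a * c ^ 2) b) : Splits a b := by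
  obtain ⟨x, y, z, h0, h1⟩ := h
  refine ⟨c * x, y, z, ?_, by rw [h1]; ring⟩
  rcases h0 with h0 | h0 | h0
  · exact Or.inl (mul_ne_zero hc h0)
  · exact Or.inr (Or.inl h0)
  · exact Or.inr (Or.inr h0)

theorem splits_mul_sq {a b c : F} (hc : c ≠ 0) : Splits (a * c ^ 2) b ↔ Splits a b := by
  refine ⟨splits_of_mul_sq hc, fun h => ?_⟩
  have h1 : a = a * c ^ 2 * (c⁻¹) ^ 2 := by field_simp
  rw [h1] at h
  exact splits_of_mul_sq (inv_ne_zero hc) h

theorem splits_neg_mul_of {a b : F} (hb : b ≠ 0) (h : Splits a b) : Splits (-a * b) b := by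
  obtain ⟨x, y, z, h0, h1⟩ := h
  refine ⟨x, z, b * y, ?_, ?_⟩
  · rcases h0 with h0 | h0 | h0
    · exact Or.inl h0
    · exact Or.inr (Or.inr (mul_ne_zero hb h0))
    · exact Or.inr (Or.inl h0)
  · rw [h1]; ring

theorem splits_neg_mul {a b : F} (hb : b ≠ 0) : Splits (-a * b) b ↔ Splits a b := by
  refine ⟨fun h => ?_, splits_neg_mul_of hb⟩
  have h1 := splits_neg_mul_of hb h
  have h2 : -(-a * b) * b = a * b ^ 2 := by ring
  rw [h2] at h1
  exact splits_of_mul_sq hb h1

end field

theorem even_agree {α : Type} {R S : Set α} (hS : S.Finite) (hSe : Even S.ncard) (v : α)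
    (h : ∀ u, u ≠ v → (u ∈ R ↔ u ∈ S)) (hR : R.Finite → Even R.ncard) : v ∈ R ↔ v ∈ S := by
  have hRf : R.Finite := by
    apply (hS.insert v).subset
    intro u hu
    by_cases huv : u = v
    · exact Or.inl huv
    · exact Or.inr ((h u huv).1 hu)
  have hRe := hR hRf
  constructor
  · intro hv
    by_contra hv'
    have h1 : R = insert v S := by
      ext u
      by_cases huv : u = v
      · subst huv; simp [hv]
      · rw [h u huv]; simp [huv]
    rw [h1, Set.ncard_insert_of_notMem hv' hS] at hRe
    have := hSe.add_one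
    exact (Nat.not_even_iff_odd.2 this) hRe
  · intro hv
    by_contra hv'
    have h1 : S = insert v R := by
      ext u
      by_cases huv : u = v
      · subst huv; simp [hv]
      · rw [← h u huv]; simp [huv]
    rw [h1, Set.ncard_insert_of_notMem hv' hRf] at hSe
    have := hRe.add_one
    exact (Nat.not_even_iff_odd.2 this) hSe

end Pool.Agent.W313.BMX
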