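import Pool.Agent.W313.BMX.Alg

/-!
# The exactness theorem
-/

set_option autoImplicit false
set_option linter.all false
set_option maxHeartbeats 1000000

namespace Pool.Agent.W313.BMX

open Finset

theorem padic_parity {p : ℕ} [Fact p.Prime] {m m' : ℤ} {c c' : ℚ_[p]} (hm : ¬ (p : ℤ) ∣ m)
    (hm' : ¬ (p : ℤ) ∣ m') (hc : c ≠ 0) :
    (((p : ℤ) * m : ℤ) : ℚ_[p]) * c ^ 2 ≠ (m' : ℚ_[p]) * c' ^ 2 := by
  intro h
  have hm0 : m ≠ 0 := fun h0 => hm (h0 ▸ dvd_zero _)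
  have hm0' : m' ≠ 0 := fun h0 => hm' (h0 ▸ dvd_zero _)
  have hp0 : (p : ℚ_[p]) ≠ 0 := Nat.cast_ne_zero.2 (Fact.out : p.Prime).ne_zero
  have e1 : (m : ℚ_[p]) ≠ 0 := Int.cast_ne_zero.2 hm0
  have e1' : (m' : ℚ_[p]) ≠ 0 := Int.cast_ne_zero.2 hm0'
  have hc' : c' ≠ 0 := by
    rintro rfl
    rw [zero_pow two_ne_zero, mul_zero] at h
    push_cast at h
    exact (mul_ne_zero (mul_ne_zero hp0 e1) (pow_ne_zero _ hc)) h
  have hv := congrArg Padic.valuation h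
  push_cast at hv
  rw [Padic.valuation_mul (mul_ne_zero hp0 e1) (pow_ne_zero _ hc), Padic.valuation_mul hp0 e1,
    Padic.valuation_mul e1' (pow_ne_zero _ hc'), Padic.valuation_pow, Padic.valuation_pow,
    Padic.valuation_p, Padic.valuation_intCast, Padic.valuation_intCast,
    padicValInt.eq_zero_of_not_dvd hm, padicValInt.eq_zero_of_not_dvd hm'] at hv
  push_cast at hv
  omega

theorem leg_mul {p : ℕ} [Fact p.Prime] {a b c : ℤ} (hc : ¬ (p : ℤ) ∣ c)
    (h : legendreSym p (c * a) = legendreSym p (c * b)) : legendreSym p a = legendreSym p b := by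
  rw [legendreSym.mul, legendreSym.mul] at h
  have h1 : legendreSym p c ≠ 0 := by
    rw [Ne, legendreSym.eq_zero_iff, ZMod.intCast_zmod_eq_zero_iff_dvd]
    exact hc
  exact mul_left_cancel₀ h1 h

theorem leg_eq_of_iff {p : ℕ} [Fact p.Prime] {a b : ℤ} (ha : ¬ (p : ℤ) ∣ a) (hb : ¬ (p : ℤ) ∣ b)
    (h : legendreSym p a = 1 ↔ legendreSym p b = 1) : legendreSym p a = legendreSym p b := by
  have ha' : ((a : ℤ) : ZMod p) ≠ 0 := fun h0 => ha ((ZMod.intCast_zmod_eq_zero_iff_dvd a p).1 h0)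
  have hb' : ((b : ℤ) : ZMod p) ≠ 0 := fun h0 => hb ((ZMod.intCast_zmod_eq_zero_iff_dvd b p).1 h0)
  rcases legendreSym.eq_one_or_neg_one p ha' with h1 | h1 <;>
    rcases legendreSym.eq_one_or_neg_one p hb' with h2 | h2
  · rw [h1, h2]
  · rw [h.1 h1] at h2; exact absurd h2 (by decide)
  · rw [h.2 h2] at h1; exact absurd h1 (by decide)
  · rw [h1, h2]

theorem notdvd_unit {p : ℕ} [hp : Fact p.Prime] {e : ℤ} (he : e = 1 ∨ e = -1) :
    ¬ (p : ℤ) ∣ e := by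
  have h2 := hp.out.two_le
  rcases he with rfl | rfl
  · intro h
    have := Int.le_of_dvd one_pos h
    omega
  · intro h
    have := Int.le_of_dvd one_pos (dvd_neg.1 h)
    omega

/-- at the prime dividing the test element, units -/
theorem splits_unit_at (h3 : S_ODD3) {l : ℕ} [Fact l.Prime] (hl2 : l ≠ 2) {e' m : ℤ}
    (he' : e' = 1 ∨ e' = -1) (hm : ¬ (l : ℤ) ∣ m) :
    Splits ((m : ℤ) : ℚ_[l]) ((l * e' : ℤ) : ℚ_[l]) ↔ legendreSym l m = 1 := by
  rw [splits_comm]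
  exact h3 l hl2 e' m (notdvd_unit he') hm

/-- at the prime dividing the test element, `l` times a unit -/
theorem splits_mul_at (h3 : S_ODD3) {l : ℕ} [Fact l.Prime] (hl2 : l ≠ 2) {e' m : ℤ}
    (he' : e' = 1 ∨ e' = -1) (hm : ¬ (l : ℤ) ∣ m) :
    Splits ((l * m : ℤ) : ℚ_[l]) ((l * e' : ℤ) : ℚ_[l]) ↔ legendreSym l (-e' * m) = 1 := by
  have hl0 : (l : ℚ_[l]) ≠ 0 := Nat.cast_ne_zero.2 (Fact.out : l.Prime).ne_zero
  have he0 : (e' : ℚ_[l]) ≠ 0 := by rcases he' with rfl | rfl <;> simp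
  have hb : ((l * e' : ℤ) : ℚ_[l]) ≠ 0 := by
    push_cast
    exact mul_ne_zero hl0 he0
  rw [← splits_neg_mul hb]
  have h1 : -((l * m : ℤ) : ℚ_[l]) * ((l * e' : ℤ) : ℚ_[l]) =
      ((-e' * m : ℤ) : ℚ_[l]) * (l : ℚ_[l]) ^ 2 := by
    push_cast
    ring
  rw [h1, splits_mul_sq hl0]
  refine splits_unit_at h3 hl2 he' ?_
  intro h
  rcases (Nat.prime_iff_prime_int.1 (Fact.out : l.Prime)).dvd_or_dvd h with h4 | h4
  · exact notdvd_unit he' (dvd_neg.1 h4)
  · exact hm h4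

theorem splits_two_mul_two (t5 : S_TWO5) (c : ℤ) (hc : c % 2 = 1) :
    Splits ((2 * c : ℤ) : ℚ_[2]) 2 ↔ (c % 8 = 1 ∨ c % 8 = 7) := (t5 c hc).2

/-- the data of a family -/
structure Rep (a : Fam) (t : Nat.Primes → ℕ) (m : Nat.Primes → ℤ)
    (c : ∀ p : Nat.Primes, ℚ_[(p : ℕ)]) : Prop where
  le : ∀ p, t p ≤ 1
  nd : ∀ p : Nat.Primes, ¬ ((p : ℕ) : ℤ) ∣ m p
  ne : ∀ p, c p ≠ 0
  eq : ∀ p : Nat.Primes, a.pa p = ((((p : ℕ) : ℤ) ^ t p * m p : ℤ) : ℚ_[(p : ℕ)]) * c p ^ 2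

theorem exists_rep (h4 : S_ODD4) (a : Fam) (ha : ∀ p, a.pa p ≠ 0) :
    ∃ t m c, Rep a t m c := by
  choose t m c h using fun p : Nat.Primes => h4 (p : ℕ) (a.pa p) (ha p)
  refine ⟨t, m, c, fun p => (h p).1, fun p => (h p).2.1, fun p => (h p).2.2.1, fun p => ?_⟩
  have := (h p).2.2.2
  push_cast at this ⊢
  exact this

theorem real_splits {a b : ℝ} (ha : a ≠ 0) (hb : b ≠ 0) (hab : 0 < a * b) (e : ℝ) :
    Splits a e ↔ Splits b e := by
  have h1 : a = b * (Real.sqrt (a / b)) ^ 2 := by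
    have h2 : 0 ≤ a / b := by
      have : a / b = a * b / b ^ 2 := by field_simp
      rw [this]
      positivity
    rw [Real.sq_sqrt h2]
    field_simp
  have h3 : Real.sqrt (a / b) ≠ 0 := by
    intro h0
    rw [h0] at h1
    simp at h1
    exact ha h1
  rw [h1, splits_mul_sq h3]

/-- symbols agree at the primes not dividing the test element -/
theorem agree_odd (h2 : S_ODD2) (h3 : S_ODD3) {a : Fam} {t m c} (hr : Rep a t m c) {n : ℤ}
    (p : Nat.Primes) (hp2 : (p : ℕ) ≠ 2) {n' : ℤ} (hn' : ¬ ((p : ℕ) : ℤ) ∣ n')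
    (hn : n = ((p : ℕ) : ℤ) ^ t p * n') {e : ℤ} (he : ¬ ((p : ℕ) : ℤ) ∣ e) :
    Splits (a.pa p) (e : ℚ_[(p : ℕ)]) ↔ Splits ((n : ℤ) : ℚ_[(p : ℕ)]) (e : ℚ_[(p : ℕ)]) := by
  rw [hr.eq p, splits_mul_sq (hr.ne p), hn]
  have ht := hr.le p
  interval_cases h : t p
  · rw [pow_zero, one_mul, one_mul]
    exact ⟨fun _ => h2 _ hp2 _ _ hn' he, fun _ => h2 _ hp2 _ _ (hr.nd p) he⟩
  · rw [pow_one]
    exact (h3 _ hp2 _ _ (hr.nd p) he).trans (h3 _ hp2 _ _ hn' he).symm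

theorem two_not_dvd {m : ℤ} (h : ¬ ((2 : ℕ) : ℤ) ∣ m) : m % 2 = 1 := by
  push_cast at h
  omega

/-- symbols agree at `2` for test elements `1` modulo `4` -/
theorem agree_two (t2 : S_TWO2) (t3 : S_TWO3) {m n' : ℤ} {t : ℕ} (ht : t ≤ 1) {c : ℚ_[2]}
    (hc : c ≠ 0) (hm : m % 2 = 1) (hn' : n' % 2 = 1) {e : ℤ} (he : e % 4 = 1) :
    Splits (((2 ^ t * m : ℤ) : ℚ_[2]) * c ^ 2) ((e : ℤ) : ℚ_[2]) ↔
      Splits ((2 ^ t * n' : ℤ) : ℚ_[2]) ((e : ℤ) : ℚ_[2]) := by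
  rw [splits_mul_sq hc]
  interval_cases t
  · rw [pow_zero, one_mul, one_mul]
    exact ⟨fun _ => t2 _ _ hn' he, fun _ => t2 _ _ hm he⟩
  · rw [pow_one]
    exact (t3 _ _ hm he).trans (t3 _ _ hn' he).symm

/-- the class at `2` is determined by the symbols with `-1` and `2` -/
theorem class_two (t1 : S_TWO1) (t4 : S_TWO4) (t5 : S_TWO5) {m n' : ℤ} {t : ℕ} (ht : t ≤ 1)
    {c : ℚ_[2]} (hc : c ≠ 0) (hm : m % 2 = 1) (hn' : n' % 2 = 1)
    (h1 : Splits (((2 ^ t * m : ℤ) : ℚ_[2]) * c ^ 2) (-1) ↔ Splits ((2 ^ t * n' : ℤ) : ℚ_[2]) (-1))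
    (h2 : Splits (((2 ^ t * m : ℤ) : ℚ_[2]) * c ^ 2) 2 ↔ Splits ((2 ^ t * n' : ℤ) : ℚ_[2]) 2) :
    IsSquare ((((2 ^ t * m : ℤ) : ℚ_[2]) * c ^ 2) * ((2 ^ t * n' : ℤ) : ℚ_[2])) := by
  rw [splits_mul_sq hc] at h1 h2
  have key : m % 8 = n' % 8 := by
    interval_cases t
    · rw [pow_zero, one_mul, one_mul, (t4 m hm).1, (t4 n' hn').1] at h1
      rw [pow_zero, one_mul, one_mul, (t5 m hm).1, (t5 n' hn').1] at h2
      omega
    · rw [pow_one, (t4 m hm).2, (t4 n' hn').2] at h1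
      rw [pow_one, (t5 m hm).2, (t5 n' hn').2] at h2
      omega
  obtain ⟨r, hr⟩ := t1 m n' hm key
  refine ⟨2 ^ t * c * r, ?_⟩
  push_cast at hr ⊢
  linear_combination (2 ^ t) ^ 2 * c ^ 2 * hr

/-- the class at the odd prime `l` is determined by the symbol with `± l` -/
theorem class_odd (h1 : S_ODD1) (h3 : S_ODD3) {l : ℕ} [Fact l.Prime] (hl2 : l ≠ 2) {m n' : ℤ}
    {t : ℕ} (ht : t ≤ 1) {c : ℚ_[l]} (hc : c ≠ 0) (hm : ¬ (l : ℤ) ∣ m) (hn' : ¬ (l : ℤ) ∣ n')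
    {e' : ℤ} (he' : e' = 1 ∨ e' = -1)
    (h : Splits ((((l : ℤ) ^ t * m : ℤ) : ℚ_[l]) * c ^ 2) ((l * e' : ℤ) : ℚ_[l]) ↔
      Splits (((l : ℤ) ^ t * n' : ℤ) : ℚ_[l]) ((l * e' : ℤ) : ℚ_[l])) :
    IsSquare (((((l : ℤ) ^ t * m : ℤ) : ℚ_[l]) * c ^ 2) * (((l : ℤ) ^ t * n' : ℤ) : ℚ_[l])) := by
  rw [splits_mul_sq hc] at h
  have hue : ¬ (l : ℤ) ∣ -e' := fun h0 => notdvd_unit he' (dvd_neg.1 h0)
  have hpr := Nat.prime_iff_prime_int.1 (Fact.out : l.Prime)
  have key : legendreSym l m = legendreSym l n' := by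
    interval_cases t
    · rw [pow_zero, one_mul, one_mul, splits_unit_at h3 hl2 he' hm,
        splits_unit_at h3 hl2 he' hn'] at h
      exact leg_eq_of_iff hm hn' h
    · rw [pow_one, splits_mul_at h3 hl2 he' hm, splits_mul_at h3 hl2 he' hn'] at h
      refine leg_mul hue (leg_eq_of_iff ?_ ?_ h)
      · intro h0
        rcases hpr.dvd_or_dvd h0 with h4 | h4
        · exact hue h4
        · exact hm h4
      · intro h0
        rcases hpr.dvd_or_dvd h0 with h4 | h4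
        · exact hue h4
        · exact hn' h4
  obtain ⟨r, hr⟩ := h1 l hl2 m n' hm hn' key
  refine ⟨l ^ t * c * r, ?_⟩
  push_cast at hr ⊢
  linear_combination ((l : ℚ_[l]) ^ t) ^ 2 * c ^ 2 * hr

/-- the integer with given sign and given primes -/
theorem exists_int (T : Finset Nat.Primes) (s : ℤ) (hs : s = 1 ∨ s = -1) :
    ∃ n : ℤ, Squarefree n ∧ (0 < n * s) ∧ ∀ p : Nat.Primes, ∃ n' : ℤ, ¬ ((p : ℕ) : ℤ) ∣ n' ∧
      n = ((p : ℕ) : ℤ) ^ (if p ∈ T then 1 else 0) * n' := by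
  classical
  have hP : ∀ S : Finset Nat.Primes, Squarefree (∏ p ∈ S, (p : ℕ)) := by
    intro S
    induction S using Finset.induction_on with
    | empty => simp
    | insert p S hp ih =>
      rw [Finset.prod_insert hp, Nat.squarefree_mul_iff]
      refine ⟨?_, p.2.squarefree, ih⟩
      apply Nat.Coprime.prod_right
      intro q hq
      rw [Nat.coprime_primes p.2 q.2]
      intro h
      exact hp ((Subtype.ext h : p = q) ▸ hq)
  have hnd : ∀ (S : Finset Nat.Primes) (p : Nat.Primes), p ∉ S → ¬ (p : ℕ) ∣ ∏ q ∈ S, (q : ℕ) := by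
    intro S p hp h
    obtain ⟨q, hq, hpq⟩ := (Prime.dvd_finset_prod_iff (Nat.prime_iff.1 p.2) _).1 h
    rw [Nat.prime_dvd_prime_iff_eq p.2 q.2] at hpq
    exact hp ((Subtype.ext hpq : p = q) ▸ hq)
  refine ⟨s * ((∏ p ∈ T, (p : ℕ) : ℕ) : ℤ), ?_, ?_, ?_⟩
  · rw [← Int.squarefree_natAbs]
    have : (s * ((∏ p ∈ T, (p : ℕ) : ℕ) : ℤ)).natAbs = ∏ p ∈ T, (p : ℕ) := by
      rcases hs with rfl | rfl
      · rw [one_mul, Int.natAbs_natCast]
      · rw [neg_one_mul, Int.natAbs_neg, Int.natAbs_natCast]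
    rw [this]
    exact hP T
  · have h1 : (0 : ℤ) < ((∏ p ∈ T, (p : ℕ) : ℕ) : ℤ) := by
      have h2 : 0 < ∏ p ∈ T, (p : ℕ) := Finset.prod_pos fun (p : Nat.Primes) _ => p.2.pos
      exact_mod_cast h2
    rcases hs with rfl | rfl <;> nlinarith
  · intro p
    by_cases hp : p ∈ T
    · refine ⟨s * ((∏ q ∈ T.erase p, (q : ℕ) : ℕ) : ℤ), ?_, ?_⟩
      · intro h
        rcases (Nat.prime_iff_prime_int.1 p.2).dvd_or_dvd h with h4 | h4
        · exact notdvd_unit (p := p) hs h4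
        · exact hnd _ p (Finset.notMem_erase p T) (Int.natCast_dvd_natCast.1 h4)
      · rw [if_pos hp, pow_one, ← Finset.mul_prod_erase T _ hp]
        push_cast
        ring
    · refine ⟨s * ((∏ q ∈ T, (q : ℕ) : ℕ) : ℤ), ?_, ?_⟩
      · intro h
        rcases (Nat.prime_iff_prime_int.1 p.2).dvd_or_dvd h with h4 | h4
        · exact notdvd_unit (p := p) hs h4
        · exact hnd _ p hp (Int.natCast_dvd_natCast.1 h4)
      · rw [if_neg hp, pow_zero, one_mul]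

theorem exact_ (h1 : S_ODD1) (h2 : S_ODD2) (h3 : S_ODD3) (h4 : S_ODD4) (t1 : S_TWO1)
    (t2 : S_TWO2) (t3 : S_TWO3) (t4 : S_TWO4) (t5 : S_TWO5) (hrec : S_REC) : S_EXACT := by
  classical
  intro a hre hpa hfin horth
  obtain ⟨t, m, c, hr⟩ := exists_rep h4 a hpa
  have hTfin : {p : Nat.Primes | t p = 1}.Finite := by
    apply hfin.subset
    intro p hp m' c' hm' h
    have hp1 : t p = 1 := hp
    have e1 := hr.eq p
    rw [h, hp1, pow_one] at e1
    exact padic_parity (hr.nd p) hm' (hr.ne p) e1.symm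
  set s : ℤ := if 0 < a.re then 1 else -1 with hs
  have hs' : s = 1 ∨ s = -1 := by
    rw [hs]; split_ifs <;> simp
  obtain ⟨n, hsq, hpos, hn⟩ := exists_int hTfin.toFinset s hs'
  have hn' : ∀ p : Nat.Primes, ∃ n' : ℤ, ¬ ((p : ℕ) : ℤ) ∣ n' ∧ n = ((p : ℕ) : ℤ) ^ t p * n' := by
    intro p
    obtain ⟨n', hn1, hn2⟩ := hn p
    refine ⟨n', hn1, ?_⟩
    rw [hn2]
    congr 2
    by_cases hp : p ∈ hTfin.toFinset
    · rw [if_pos hp]
      exact ((Set.Finite.mem_toFinset hTfin).1 hp).symm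
    · rw [if_neg hp]
      have h5 : t p ≠ 1 := fun h => hp ((Set.Finite.mem_toFinset hTfin).2 h)
      have h6 := hr.le p
      omega
  have hn0 : n ≠ 0 := hsq.ne_zero
  have hn0R : (n : ℝ) ≠ 0 := Int.cast_ne_zero.2 hn0
  have hsgn : 0 < a.re * (n : ℝ) := by
    have hposR : (0 : ℝ) < (n : ℝ) * (s : ℝ) := by exact_mod_cast hpos
    by_cases h0 : 0 < a.re
    · have : s = 1 := by rw [hs, if_pos h0]
      rw [this] at hposR
      simp at hposR
      positivity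
    · have h7 : s = -1 := by rw [hs, if_neg h0]
      rw [h7] at hposR
      have h8 : a.re < 0 := lt_of_le_of_ne (not_lt.1 h0) hre
      simp at hposR
      have h9 : (n : ℝ) < 0 := by exact_mod_cast hposR
      exact mul_pos_of_neg_of_neg h8 h9
  have hreal : ∀ e : ℤ, (none : Option Nat.Primes) ∈ ram a e ↔ none ∈ ram (diag n) e := by
    intro e
    exact not_congr (real_splits hre hn0R hsgn e)
  have htest : ∀ e : ℤ, IsTest e → ∀ v : Option Nat.Primes,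
      (∀ u, u ≠ v → (u ∈ ram a e ↔ u ∈ ram (diag n) e)) →
      (v ∈ ram a e ↔ v ∈ ram (diag n) e) := by
    intro e he v hv
    exact even_agree (hrec n hsq e he).1 (hrec n hsq e he).2 v hv (horth e he)
  refine ⟨n, hsq, ?_, ?_⟩
  · exact ⟨Real.sqrt (a.re * n), (Real.mul_self_sqrt hsgn.le).symm⟩
  · intro p
    obtain ⟨n', hn1, hn2⟩ := hn' p
    by_cases hp2 : (p : ℕ) = 2
    · -- the prime two
      have hodd : ∀ e : ℤ, (e = -1 ∨ e = 2) → (some p ∈ ram a e ↔ some p ∈ ram (diag n) e) := by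
        intro e he
        apply htest e (by rcases he with rfl | rfl; exact Or.inl rfl; exact Or.inr (Or.inl rfl))
        intro u hu
        match u with
        | none => exact hreal e
        | some q =>
          have hq2 : (q : ℕ) ≠ 2 := by
            intro h
            apply hu
            congr 1
            exact Subtype.ext (h.trans hp2.symm)
          obtain ⟨nq, hnq1, hnq2⟩ := hn' q
          refine not_congr (agree_odd h2 h3 hr q hq2 hnq1 hnq2 ?_)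
          have hq3 : (2 : ℕ) ≤ q := q.2.two_le
          rcases he with rfl | rfl
          · exact notdvd_unit (p := q) (Or.inr rfl)
          · intro h
            have := Int.le_of_dvd (by norm_num) h
            omega
      have e1 := not_iff_not.1 (hodd (-1) (Or.inl rfl))
      have e2 := not_iff_not.1 (hodd 2 (Or.inr rfl))
      obtain ⟨p, hp⟩ := p
      subst hp2
      have h9 := hr.eq ⟨2, hp⟩
      have e1' : Splits (a.pa ⟨2, hp⟩) (((-1 : ℤ)) : ℚ_[2]) ↔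
        Splits ((n : ℤ) : ℚ_[2]) (((-1 : ℤ)) : ℚ_[2]) := e1
      have e2' : Splits (a.pa ⟨2, hp⟩) (((2 : ℤ)) : ℚ_[2]) ↔
        Splits ((n : ℤ) : ℚ_[2]) (((2 : ℤ)) : ℚ_[2]) := e2
      rw [h9, hn2] at e1' e2'
      push_cast at e1' e2'
      rw [h9, hn2]
      have h10 := class_two t1 t4 t5 (hr.le ⟨2, hp⟩) (hr.ne ⟨2, hp⟩)
        (two_not_dvd (hr.nd ⟨2, hp⟩)) (two_not_dvd hn1) (by push_cast; exact e1')
        (by push_cast; exact e2')
      push_cast at h10 ⊢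
      exact h10
    · -- an odd prime
      have hpo : (p : ℕ) % 2 = 1 := (p.2.eq_two_or_odd).resolve_left hp2
      obtain ⟨e', he', he4⟩ : ∃ e' : ℤ, (e' = 1 ∨ e' = -1) ∧ (((p : ℕ) : ℤ) * e') % 4 = 1 := by
        have : (p : ℕ) % 4 = 1 ∨ (p : ℕ) % 4 = 3 := by omega
        rcases this with h | h
        · exact ⟨1, Or.inl rfl, by omega⟩
        · exact ⟨-1, Or.inr rfl, by omega⟩
      have hab : (((p : ℕ) : ℤ) * e').natAbs = p := by
        rcases he' with rfl | rfl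
        · rw [mul_one, Int.natAbs_natCast]
        · rw [mul_neg_one, Int.natAbs_neg, Int.natAbs_natCast]
      have hte : IsTest (((p : ℕ) : ℤ) * e') := Or.inr (Or.inr ⟨by rw [hab]; exact p.2, he4⟩)
      have e1 := htest _ hte (some p) (by
        intro u hu
        match u with
        | none => exact hreal _
        | some q =>
          have hqp : q ≠ p := fun h => hu (by rw [h])
          obtain ⟨nq, hnq1, hnq2⟩ := hn' q
          by_cases hq2 : (q : ℕ) = 2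
          · obtain ⟨q, hq⟩ := q
            subst hq2
            refine not_congr ?_
            change Splits (a.pa ⟨2, hq⟩) ((((p : ℕ) : ℤ) * e' : ℤ) : ℚ_[2]) ↔
              Splits ((n : ℤ) : ℚ_[2]) ((((p : ℕ) : ℤ) * e' : ℤ) : ℚ_[2])
            have h9 := hr.eq ⟨2, hq⟩
            rw [h9, hnq2]
            exact agree_two t2 t3 (hr.le ⟨2, hq⟩) (hr.ne ⟨2, hq⟩)
              (two_not_dvd (hr.nd ⟨2, hq⟩)) (two_not_dvd hnq1) he4
          · refine not_congr (agree_odd h2 h3 hr q hq2 hnq1 hnq2 ?_)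
            intro h
            rcases (Nat.prime_iff_prime_int.1 q.2).dvd_or_dvd h with h5 | h5
            · have h6 := (Nat.prime_dvd_prime_iff_eq q.2 p.2).1 (Int.natCast_dvd_natCast.1 h5)
              exact hqp (Subtype.ext h6)
            · exact notdvd_unit (p := q) he' h5)
      have e2 : Splits (a.pa p) ((((p : ℕ) : ℤ) * e' : ℤ) : ℚ_[(p : ℕ)]) ↔
        Splits ((n : ℤ) : ℚ_[(p : ℕ)]) ((((p : ℕ) : ℤ) * e' : ℤ) : ℚ_[(p : ℕ)]) := not_iff_not.1 e1
      rw [hr.eq p, hn2] at e2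
      rw [hr.eq p, hn2]
      exact class_odd h1 h3 hp2 (hr.le p) (hr.ne p) (hr.nd p) hn1 he' e2

end Pool.Agent.W313.BMX
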